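import Mathlib

set_option autoImplicit false

namespace Pool.Agent.Results.MP_c6d0b8_gt.Example

open Set Filter Topology MeasureTheory

/-- The list of the moves of Two before round `n`. -/
def hist {X : Type} (U : ℕ → Set X) (n : ℕ) : List (Set X) := List.ofFn fun i : Fin n => U i

/-- One has a winning strategy in the compact-open game with `k`-covers. -/
def OneWinsK (X : Type) [TopologicalSpace X] : Prop :=
  ∃ σ : List (Set X) → Set X, ∀ U : ℕ → Set X,
    (∀ n, (∀ k < n, IsOpen (U k) ∧ σ (hist U k) ⊆ U k) →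
      IsCompact (σ (hist U n)) ∧ (σ (hist U n)).Nonempty) ∧
    ((∀ n, IsOpen (U n) ∧ σ (hist U n) ⊆ U n) → ∀ K : Set X, IsCompact K → ∃ n, K ⊆ U n)

/-- One has a winning strategy in the finite-open game. -/
def OneWinsFin (X : Type) [TopologicalSpace X] : Prop :=
  ∃ σ : List (Set X) → Set X, ∀ U : ℕ → Set X,
    (∀ n, (∀ k < n, IsOpen (U k) ∧ σ (hist U k) ⊆ U k) → (σ (hist U n)).Finite) ∧
    ((∀ n, IsOpen (U n) ∧ σ (hist U n) ⊆ U n) → ⋃ n, U n = univ)

/-- One has a winning predetermined strategy in the compact-open game with `k`-covers. -/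
def OneWinsPreK (X : Type) [TopologicalSpace X] : Prop :=
  ∃ C : ℕ → Set X, (∀ n, IsCompact (C n) ∧ (C n).Nonempty) ∧ ∀ U : ℕ → Set X,
    (∀ n, IsOpen (U n) ∧ C n ⊆ U n) → ∀ K : Set X, IsCompact K → ∃ n, K ⊆ U n

/-- one-point Lindelofication of the discrete reals -/
def L : Type := Option ℝ

instance : TopologicalSpace L where
  IsOpen W := none ∈ W → Wᶜ.Countable
  isOpen_univ := by simp
  isOpen_inter := fun V W hV hW h => by
    rw [compl_inter]; exact (hV h.1).union (hW h.2)
  isOpen_sUnion := by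
    rintro S hS ⟨W, hW, h⟩
    exact (hS W hW h).mono (compl_subset_compl.2 (subset_sUnion_of_mem hW))

theorem L_open {W : Set L} : IsOpen W ↔ (none ∈ W → Wᶜ.Countable) := Iff.rfl

instance : T2Space L := by
  have h1 : ∀ r : ℝ, IsOpen ({some r} : Set L) := fun r => L_open.2 (by intro h; cases h)
  have h2 : ∀ r : ℝ, IsOpen ({some r}ᶜ : Set L) := fun r => L_open.2 fun _ => by
    rw [compl_compl]; exact countable_singleton _
  refine ⟨?_⟩
  rintro (_ | r) y h
  · rcases y with _ | s
    · exact (h rfl).elim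
    · exact ⟨_, _, h2 s, h1 s, h, rfl, disjoint_compl_left⟩
  · exact ⟨_, _, h1 r, h2 r, rfl, h.symm, disjoint_compl_right⟩

theorem L_compact {K : Set L} (hK : IsCompact K) : K.Finite := by
  by_contra hinf
  have hinf' : (K \ {none}).Infinite := Infinite.sdiff hinf (finite_singleton _)
  obtain ⟨S, hS, hSc, hSi⟩ := hinf'.exists_subset_countable_infinite
  have hcl : ∀ T ⊆ S, IsClosed T := fun T hT =>
    isOpen_compl_iff.1 (L_open.2 fun _ => by simpa using hSc.mono hT)
  refine hSi ((hK.of_isClosed_subset (hcl S Subset.rfl) (hS.trans diff_subset)).finite ?_)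
  rw [isDiscrete_iff_forall_exists_isOpen]
  intro x hx
  refine ⟨{x}, L_open.2 fun h => ?_, by simpa using hx⟩
  exact ((hS hx).2 (mem_singleton_iff.1 h).symm).elim

abbrev Sp : Type := L ⊕ unitInterval

theorem fin_part {K : Set Sp} (hK : IsCompact K) : (K \ range Sum.inr).Finite := by
  have := L_compact (IsClosedEmbedding.inl.isCompact_preimage hK)
  refine (this.image Sum.inl).subset ?_
  rintro (x | x) hx
  · exact ⟨x, hx.1, rfl⟩
  · exact (hx.2 ⟨x, rfl⟩).elim

theorem winK : OneWinsK Sp := by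
  classical
  have : ∀ W : Set Sp, ∃ e : ℕ → Sp, Wᶜ.Countable → Wᶜ ⊆ range e := fun W => by
    by_cases h : Wᶜ.Countable
    · obtain ⟨e, he⟩ := (h.insert (Sum.inl none)).exists_eq_range (insert_nonempty _ _)
      exact ⟨e, fun _ => he ▸ subset_insert _ _⟩
    · exact ⟨fun _ => Sum.inl none, fun h' => (h h').elim⟩
  choose e he using this
  refine ⟨fun l => insert (Sum.inl none) (range Sum.inr ∪
    ⋃ W ∈ {W | W ∈ l}, e W '' {i | i < l.length}), fun U => ⟨fun n _ => ⟨?_, insert_nonempty _ _⟩,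
      fun hU K hK => ?_⟩⟩
  · refine IsCompact.insert (X := Sp)
      ((isCompact_range (Y := Sp) continuous_inr).union (Finite.isCompact ?_)) _
    exact (List.finite_toSet _).biUnion fun W _ => (finite_lt_nat _).image _
  · have hc : ∀ n, (U n)ᶜ.Countable := fun n => by
      have h1 : (Sum.inl ⁻¹' U n : Set L)ᶜ.Countable :=
        L_open.1 ((hU n).1.preimage continuous_inl) ((hU n).2 (mem_insert _ _))
      refine (h1.image Sum.inl).mono ?_
      rintro (x | x) hx
      · exact ⟨x, hx, rfl⟩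
      · exact (hx ((hU n).2 (Or.inr (Or.inl ⟨x, rfl⟩)))).elim
    have hev : ∀ x, ∀ᶠ n in atTop, x ∈ U n := fun x => by
      by_cases hx : ∀ n, x ∈ U n
      · exact Eventually.of_forall hx
      · push Not at hx
        obtain ⟨j, hj⟩ := hx
        obtain ⟨i, hi⟩ := he _ (hc j) hj
        filter_upwards [eventually_gt_atTop i, eventually_gt_atTop j] with n hin hjn
        refine (hU n).2 (Or.inr (Or.inr (mem_iUnion₂.2 ⟨U j, ?_, i, ?_, hi⟩)))
        · exact List.mem_ofFn.2 ⟨⟨j, hjn⟩, rfl⟩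
        · simpa [hist] using hin
    obtain ⟨n, hn⟩ := ((eventually_all_finite (fin_part hK)).2 fun x _ => hev x).exists
    refine ⟨n, fun x hx => ?_⟩
    by_cases hr : x ∈ range Sum.inr
    · exact (hU n).2 (Or.inr (Or.inl hr))
    · exact hn x ⟨hx, hr⟩

theorem notFin : ¬ OneWinsFin Sp := by
  rintro ⟨σ, hσ⟩
  obtain ⟨ε, hε, hs⟩ := ENNReal.exists_pos_sum_of_countable' (ε := 1) one_ne_zero ℕ
  have : ∀ (F : Set Sp) (n : ℕ), ∃ W : Set Sp, F.Finite → IsOpen W ∧ F ⊆ W ∧
      volume (Sum.inr ⁻¹' W : Set unitInterval) < ε n := fun F n => by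
    by_cases hF : F.Finite
    · have h0 : volume (Sum.inr ⁻¹' F : Set unitInterval) < ε n := by
        rw [(hF.preimage Sum.inr_injective.injOn).measure_zero]; exact hε n
      obtain ⟨V, hFV, hV, hlt⟩ := Set.exists_isOpen_lt_of_lt _ _ h0
      refine ⟨range Sum.inl ∪ Sum.inr '' V, fun _ => ⟨isOpen_range_inl.union
        (isOpenMap_inr _ hV), ?_, ?_⟩⟩
      · rintro (x | x) hx
        · exact Or.inl ⟨x, rfl⟩
        · exact Or.inr ⟨x, hFV hx, rfl⟩
      · convert hlt
        ext x; simp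
    · exact ⟨∅, fun h => (hF h).elim⟩
  choose β hβ using this
  let l : ℕ → List (Set Sp) := fun n => Nat.rec [] (fun k l => l ++ [β (σ l) k]) n
  let U : ℕ → Set Sp := fun n => β (σ (l n)) n
  have hl : ∀ n, hist U n = l n := by
    intro n
    induction n with
    | zero => rfl
    | succ n ih =>
      unfold hist at ih ⊢
      rw [List.ofFn_succ_last]
      simp only [Fin.val_castSucc, Fin.val_last]
      rw [ih]
  obtain ⟨h1, h2⟩ := hσ U
  simp only [hl] at h1 h2
  have hf : ∀ n, (σ (l n)).Finite := fun n => by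
    induction n using Nat.strong_induction_on with
    | _ n ih => exact h1 n fun k hk => ⟨(hβ _ k (ih k hk)).1, (hβ _ k (ih k hk)).2.1⟩
  have hcov := h2 fun n => ⟨(hβ _ n (hf n)).1, (hβ _ n (hf n)).2.1⟩
  have : volume (univ : Set unitInterval) < 1 := by
    calc volume (univ : Set unitInterval) = volume (⋃ n, Sum.inr ⁻¹' U n : Set unitInterval) := by
          rw [← preimage_iUnion, hcov, preimage_univ]
      _ ≤ ∑' n, volume (Sum.inr ⁻¹' U n : Set unitInterval) := measure_iUnion_le _
      _ ≤ ∑' n, ε n := ENNReal.tsum_le_tsum fun n => (hβ _ n (hf n)).2.2.le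
      _ < 1 := hs
  simp at this

theorem notPre : ¬ OneWinsPreK Sp := by
  rintro ⟨C, hC, hw⟩
  have hc : (⋃ n, (fun r : ℝ => (Sum.inl (some r) : Sp)) ⁻¹' (C n \ range Sum.inr)).Countable :=
    countable_iUnion fun n => ((fin_part (hC n).1).preimage
      (fun a _ b _ h => Option.some_injective _ (Sum.inl_injective h))).countable
  obtain ⟨r, hr⟩ : ∃ r : ℝ, r ∉ ⋃ n, (fun r : ℝ => (Sum.inl (some r) : Sp)) ⁻¹'
      (C n \ range Sum.inr) := by
    by_contra h
    push Not at h
    exact Cardinal.not_countable_real (hc.mono fun r _ => h r)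
  obtain ⟨n, hn⟩ := hw (fun _ => {Sum.inl (some r)}ᶜ) (fun n => ⟨isOpen_compl_singleton, by
    rintro x hx rfl
    exact hr (mem_iUnion.2 ⟨n, hx, by simp⟩)⟩) _ isCompact_singleton
  exact hn rfl rfl

theorem result : ∃ (X : Type) (_ : TopologicalSpace X), T2Space X ∧
    OneWinsK X ∧ ¬ OneWinsFin X ∧ ¬ OneWinsPreK X :=
  ⟨Sp, inferInstance, inferInstance, winK, notFin, notPre⟩

end Pool.Agent.Results.MP_c6d0b8_gt.Example
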